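import Mathlib

set_option autoImplicit false

namespace Pool.Agent.R335.IC

/-- integral extensions preserve the Krull dimension -/
theorem dim_eq {R S : Type*} [CommRing R] [CommRing S] [Algebra R S] [Algebra.IsIntegral R S]
    (hinj : Function.Injective (algebraMap R S)) : ringKrullDim S = ringKrullDim R := by
  apply le_antisymm
  · unfold ringKrullDim
    apply Order.krullDim_le_of_strictMono (PrimeSpectrum.comap (algebraMap R S))
    intro p q hpq
    have := Ideal.IsIntegral.comap_lt_comap (R := R) (I := p.asIdeal) (J := q.asIdeal) hpq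
    exact this
  · unfold ringKrullDim
    unfold Order.krullDim
    apply iSup_le
    intro l
    have : ∃ P : Ideal S, P.IsPrime ∧ P.comap (algebraMap R S) = l.head.asIdeal := by
      obtain ⟨Q, -, hQ, hQ'⟩ := Ideal.exists_ideal_over_prime_of_isIntegral (S := S) l.head.asIdeal
        (⊥ : Ideal S) (by
          rw [← RingHom.ker_eq_comap_bot, (RingHom.injective_iff_ker_eq_bot _).1 hinj]
          exact bot_le)
      exact ⟨Q, hQ, hQ'⟩
    obtain ⟨P, hP, hP'⟩ := this
    have := hP
    have : P.LiesOver (RelSeries.head l).asIdeal := ⟨hP'.symm⟩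
    obtain ⟨L, hL, -, -⟩ := Ideal.exists_ltSeries_of_hasGoingUp (S := S) l P
    rw [← hL]
    exact le_iSup (fun p : LTSeries (PrimeSpectrum S) => (p.length : WithBot ℕ∞)) L

/-- a Noetherian local ring of dimension `n` in which `1 + r ^ 2` is always a unit -/
theorem exists_poly (n : ℕ) : ∃ (A : Type) (_ : CommRing A) (φ : A →+* ℝ),
    IsNoetherianRing A ∧ Function.Surjective φ ∧ (RingHom.ker φ).height = n := by
  induction n with
  | zero =>
    refine ⟨ℝ, inferInstance, RingHom.id ℝ, inferInstance, fun x => ⟨x, rfl⟩, ?_⟩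
    have : RingHom.ker (RingHom.id ℝ) = ⊥ := by
      ext x; simp [RingHom.mem_ker]
    rw [this]
    simp
  | succ n ih =>
    obtain ⟨A, _, φ, hN, hs, hh⟩ := ih
    let ψ : Polynomial A →+* ℝ := φ.comp (Polynomial.evalRingHom 0)
    refine ⟨Polynomial A, inferInstance, ψ, inferInstance, ?_, ?_⟩
    · intro x
      obtain ⟨a, rfl⟩ := hs x
      exact ⟨Polynomial.C a, by simp [ψ]⟩
    · have hψs : Function.Surjective ψ := by
        intro x
        obtain ⟨a, rfl⟩ := hs x
        exact ⟨Polynomial.C a, by simp [ψ]⟩
      have : (RingHom.ker ψ).IsMaximal := RingHom.ker_isMaximal_of_surjective ψ hψs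
      have : (RingHom.ker ψ).LiesOver (RingHom.ker φ) := by
        constructor
        ext x
        simp [RingHom.mem_ker, ψ, Ideal.under, Polynomial.algebraMap_eq]
      rw [Polynomial.height_eq_height_add_one (RingHom.ker φ) (RingHom.ker ψ), hh]
      push_cast
      rfl

theorem exists_local (n : ℕ) : ∃ (S : Type) (_ : CommRing S) (_ : IsLocalRing S),
    IsNoetherianRing S ∧ ringKrullDim S = n ∧ ∀ r : S, IsUnit (1 + r * r) := by
  obtain ⟨A, _, φ, hN, hs, hh⟩ := exists_poly n
  have hp : (RingHom.ker φ).IsPrime := RingHom.ker_isPrime φ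
  refine ⟨Localization.AtPrime (RingHom.ker φ), inferInstance, inferInstance,
    IsLocalization.isNoetherianRing (RingHom.ker φ).primeCompl _ hN, ?_, ?_⟩
  · rw [IsLocalization.AtPrime.ringKrullDim_eq_height (RingHom.ker φ), hh]
    rfl
  · intro r
    obtain ⟨a, s, hx⟩ := IsLocalization.exists_mk'_eq (RingHom.ker φ).primeCompl r
    have hsφ : φ s ≠ 0 := fun h => s.2 h
    have h1 : r * algebraMap A (Localization.AtPrime (RingHom.ker φ)) s =
        algebraMap A (Localization.AtPrime (RingHom.ker φ)) a := by
      rw [← hx]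
      exact IsLocalization.mk'_spec _ a s
    have hmem : (s : A) * s + a * a ∈ (RingHom.ker φ).primeCompl := by
      intro h
      have h1 : φ ((s : A) * s + a * a) = 0 := h
      rw [map_add, map_mul, map_mul] at h1
      have : 0 < φ s * φ s := mul_self_pos.2 hsφ
      nlinarith [mul_self_nonneg (φ a)]
    have hu : IsUnit (algebraMap A (Localization.AtPrime (RingHom.ker φ)) ((s : A) * s + a * a)) :=
      IsLocalization.map_units _ (⟨_, hmem⟩ : (RingHom.ker φ).primeCompl)
    have e : algebraMap A (Localization.AtPrime (RingHom.ker φ)) ((s : A) * s + a * a) =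
        (1 + r * r) * (algebraMap A (Localization.AtPrime (RingHom.ker φ)) s *
          algebraMap A (Localization.AtPrime (RingHom.ker φ)) s) := by
      rw [map_add, map_mul, map_mul, ← h1]
      ring
    rw [e] at hu
    exact isUnit_of_mul_isUnit_left hu

end Pool.Agent.R335.IC
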