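import Pool.Agent.R335.IC.Dim

set_option autoImplicit false

namespace Pool.Agent.R335.IC

open IsLocalRing

section ring
variable (S : Type) [CommRing S] [IsLocalRing S]

/-- `{a + b i : a ∈ S, b ∈ m}` inside `S[i]` -/
def ring : Subalgebra S (QuadraticAlgebra S (-1) 0) where
  carrier := {z | z.im ∈ maximalIdeal S}
  mul_mem' := by
    intro z w hz hw
    simp only [Set.mem_ofPred_eq] at hz hw ⊢
    rw [QuadraticAlgebra.im_mul]
    have h1 := Ideal.mul_mem_left (maximalIdeal S) z.re hw
    have h2 := Ideal.mul_mem_right w.re (maximalIdeal S) hz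
    simpa using Ideal.add_mem _ h1 h2
  add_mem' := by
    intro z w hz hw
    simp only [Set.mem_ofPred_eq] at hz hw ⊢
    rw [QuadraticAlgebra.im_add]
    exact Ideal.add_mem _ hz hw
  algebraMap_mem' := by
    intro r
    simp only [Set.mem_ofPred_eq]
    rw [QuadraticAlgebra.algebraMap_im]
    exact Ideal.zero_mem _

variable {S}

theorem mem_ring {z : QuadraticAlgebra S (-1) 0} : z ∈ ring S ↔ z.im ∈ maximalIdeal S := Iff.rfl

theorem isUnit_of_re (z : ring S) (h : IsUnit z.1.re) : IsUnit z := by
  have hn : IsUnit (z.1.re * z.1.re + z.1.im * z.1.im) := by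
    by_contra hc
    have h1 : z.1.re * z.1.re + z.1.im * z.1.im ∈ maximalIdeal S := (mem_maximalIdeal _).2 hc
    have h2 : z.1.im * z.1.im ∈ maximalIdeal S := Ideal.mul_mem_left _ _ z.2
    have h3 : z.1.re * z.1.re ∈ maximalIdeal S := by
      have := Ideal.sub_mem _ h1 h2
      simpa using this
    exact (mem_maximalIdeal _).1 h3 (h.mul h)
  obtain ⟨u, hu⟩ := hn.exists_right_inv
  refine IsUnit.of_mul_eq_one
    (⟨⟨z.1.re * u, -(z.1.im * u)⟩, ?_⟩ : ring S) ?_
  · rw [mem_ring]
    exact (Ideal.neg_mem_iff _).2 (Ideal.mul_mem_right _ _ z.2)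
  · apply Subtype.ext
    apply QuadraticAlgebra.ext
    · simp only [MulMemClass.coe_mul, QuadraticAlgebra.re_mul, OneMemClass.coe_one,
        QuadraticAlgebra.re_one]
      linear_combination hu
    · simp only [MulMemClass.coe_mul, QuadraticAlgebra.im_mul, OneMemClass.coe_one,
        QuadraticAlgebra.im_one]
      ring

theorem isUnit_iff (z : ring S) : IsUnit z ↔ IsUnit z.1.re := by
  refine ⟨fun h => ?_, isUnit_of_re z⟩
  obtain ⟨w, hw⟩ := h.exists_right_inv
  have h1 := congrArg (fun t : ring S => t.1.re) hw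
  simp only [MulMemClass.coe_mul, QuadraticAlgebra.re_mul, OneMemClass.coe_one,
        QuadraticAlgebra.re_one] at h1
  by_contra hc
  have h2 : z.1.re ∈ maximalIdeal S := (mem_maximalIdeal _).2 hc
  have h3 : (1 : S) ∈ maximalIdeal S := by
    rw [← h1]
    apply Ideal.add_mem
    · exact Ideal.mul_mem_right _ _ h2
    · exact Ideal.mul_mem_left _ _ w.2
  exact (mem_maximalIdeal _).1 h3 isUnit_one

instance : IsLocalRing (ring S) := by
  have : Nontrivial (ring S) := by
    refine ⟨0, 1, fun h => ?_⟩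
    have h1 := congrArg (fun t : ring S => t.1.re) h
    simp only [ZeroMemClass.coe_zero, QuadraticAlgebra.re_zero, OneMemClass.coe_one,
      QuadraticAlgebra.re_one] at h1
    exact zero_ne_one h1
  refine IsLocalRing.of_nonunits_add ?_
  intro z w hz hw
  rw [mem_nonunits_iff, isUnit_iff] at hz hw ⊢
  have h1 : z.1.re ∈ maximalIdeal S := (mem_maximalIdeal _).2 hz
  have h2 : w.1.re ∈ maximalIdeal S := (mem_maximalIdeal _).2 hw
  exact (mem_maximalIdeal _).1 (Ideal.add_mem _ h1 h2)

theorem mem_max (z : ring S) : z ∈ maximalIdeal (ring S) ↔ z.1.re ∈ maximalIdeal S := by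
  rw [mem_maximalIdeal, mem_maximalIdeal, mem_nonunits_iff, mem_nonunits_iff, isUnit_iff]

open Classical in
/-- multiplication by `i` on the maximal ideal -/
noncomputable def J (z : ring S) : ring S :=
  if h : z.1.re ∈ maximalIdeal S then ⟨⟨-z.1.im, z.1.re⟩, h⟩ else 0

theorem J_val {z : ring S} (h : z ∈ maximalIdeal (ring S)) :
    (J z).1 = ⟨-z.1.im, z.1.re⟩ := by
  have h' := (mem_max z).1 h
  simp [J, h']

theorem J_mem {z : ring S} (h : z ∈ maximalIdeal (ring S)) : J z ∈ maximalIdeal (ring S) := by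
  rw [mem_max, J_val h]
  exact (Ideal.neg_mem_iff _).2 z.2

theorem J_J {z : ring S} (h : z ∈ maximalIdeal (ring S)) : J (J z) = -z := by
  apply Subtype.ext
  rw [J_val (J_mem h), J_val h]
  apply QuadraticAlgebra.ext <;> simp

theorem J_add {z w : ring S} (hz : z ∈ maximalIdeal (ring S)) (hw : w ∈ maximalIdeal (ring S)) :
    J (z + w) = J z + J w := by
  apply Subtype.ext
  rw [J_val (Ideal.add_mem _ hz hw), AddMemClass.coe_add, AddMemClass.coe_add, J_val hz, J_val hw]
  apply QuadraticAlgebra.ext
  · simp [add_comm]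
  · simp

theorem J_mul (r : ring S) {z : ring S} (hz : z ∈ maximalIdeal (ring S)) :
    J (r * z) = r * J z := by
  apply Subtype.ext
  rw [J_val (Ideal.mul_mem_left _ r hz), MulMemClass.coe_mul, MulMemClass.coe_mul, J_val hz]
  apply QuadraticAlgebra.ext
  · simp only [QuadraticAlgebra.re_mul, QuadraticAlgebra.im_mul]
    ring
  · simp only [QuadraticAlgebra.re_mul, QuadraticAlgebra.im_mul]
    ring

theorem unit_sq (h5 : ∀ r : S, IsUnit (1 + r * r)) (r : ring S) : IsUnit (1 + r * r) := by
  rw [isUnit_iff]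
  by_contra hc
  have h1 : (1 + r * r : ring S).1.re ∈ maximalIdeal S := (mem_maximalIdeal _).2 hc
  have e : (1 + r * r : ring S).1.re = (1 + r.1.re * r.1.re) - r.1.im * r.1.im := by
    simp only [AddMemClass.coe_add, MulMemClass.coe_mul, QuadraticAlgebra.re_mul,
      QuadraticAlgebra.re_add, OneMemClass.coe_one, QuadraticAlgebra.re_one]
    ring
  rw [e] at h1
  have h2 : r.1.im * r.1.im ∈ maximalIdeal S := Ideal.mul_mem_left _ _ r.2
  have h3 := Ideal.add_mem _ h1 h2
  rw [sub_add_cancel] at h3
  exact (mem_maximalIdeal _).1 h3 (h5 _)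

instance [IsNoetherianRing S] : Module.Finite S (ring S) := by
  have : IsNoetherian S (Subalgebra.toSubmodule (ring S)) := inferInstance
  have h2 : Module.Finite S (Subalgebra.toSubmodule (ring S)) := inferInstance
  exact h2

theorem noeth [IsNoetherianRing S] : IsNoetherianRing (ring S) :=
  IsNoetherianRing.of_finite S (ring S)

theorem dim [IsNoetherianRing S] : ringKrullDim (ring S) = ringKrullDim S := by
  have : Algebra.IsIntegral S (ring S) := Algebra.IsIntegral.of_finite S (ring S)
  apply dim_eq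
  intro x y hxy
  have := congrArg (fun t : ring S => t.1.re) hxy
  simpa using this

end ring

end Pool.Agent.R335.IC
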